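import Pool.Agent.H37.CNP.Stmts

/-! # Board `cnp`, row DFI -/

set_option autoImplicit false

namespace Pool.CND

theorem dfi_thm (hDLO : S_DLO) (hUPA : S_UPA) (hNGL : S_NGL) (hPTA : S_PTA) : S_DFI := by
  intro p k G _ _ _ _ A hp hch hA hcard
  have hpp := hp.two_le
  have h1 : ¬ p ∣ 1 := fun h => by
    have := Nat.le_of_dvd one_pos h
    omega
  have hc : Nat.card G = p ^ 1 * Nat.card A * 1 := by rw [pow_one, mul_one, hcard]
  constructor
  · intro h2
    have h := (hPTA p k G A 1 1 hp hch hA h1 hc).2 h2 le_rfl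
    rw [Nat.sub_self, pow_zero, mul_one] at h
    exact Nat.dvd_one.mp h
  · intro hp2 hab
    refine hNGL k G p (by omega) ?_ ?_
    · intro c hcc
      obtain ⟨z, hz⟩ := (hUPA p k G A 1 1 hp hch hA h1 hc c hcc).1
      refine ⟨z, ?_⟩
      rw [pow_one, mul_one] at hz
      exact hz
    · intro N _ hpN
      obtain ⟨m0, hm0⟩ := hDLO p k G A hp hch hp2 hA hcard hab
      have hmem : ∀ j : ℕ, ((((p * (m0 + j) + 1 : ℕ) : ℚ)) + 1 / p) ∈
          {c : ℚ | c ∈ Cond k G ∧ ¬ ∃ z : ℤ, (N : ℚ) * c = z} := by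
        intro j
        refine ⟨hm0 _ ?_ ?_ ?_, ?_⟩
        · have : 1 * (m0 + j) ≤ p * (m0 + j) := Nat.mul_le_mul_right _ (by omega)
          omega
        · intro h
          exact h1 ((Nat.dvd_add_right (Dvd.intro _ rfl)).mp h)
        · intro h
          have h3 : p ∣ 2 := (Nat.dvd_add_right (Dvd.intro (m0 + j) rfl : p ∣ p * (m0 + j))).mp
            (by rw [Nat.add_assoc] at h; exact h)
          have := Nat.le_of_dvd two_pos h3
          omega
        · rintro ⟨z, hz⟩
          have hp0 : (p : ℚ) ≠ 0 := by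
            have : p ≠ 0 := by omega
            exact_mod_cast this
          have h4 : (N : ℚ) = p * (z - N * ((p * (m0 + j) + 1 : ℕ) : ℚ)) := by
            rw [← hz]
            field_simp
            ring
          have h5 : (N : ℤ) = p * (z - N * ((p * (m0 + j) + 1 : ℕ) : ℤ)) := by
            exact_mod_cast h4
          exact hpN (Int.natCast_dvd_natCast.mp ⟨_, h5⟩)
      refine Set.infinite_of_injective_forall_mem (f := fun j : ℕ =>
        ((((p * (m0 + j) + 1 : ℕ) : ℚ)) + 1 / p)) ?_ hmem
      intro i j hij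
      simp only [add_left_inj] at hij
      have h6 : p * (m0 + i) + 1 = p * (m0 + j) + 1 := by exact_mod_cast hij
      have h7 : p * (m0 + i) = p * (m0 + j) := by omega
      have h8 := Nat.eq_of_mul_eq_mul_left (by omega) h7
      omega

end Pool.CND
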